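import Mathlib

set_option autoImplicit false

/-!
# d-spaces and d-reflections
-/

namespace Pool.Agent.N489.DR

universe u

/-- The specialization order of a space: `x ≤ y` iff `x` lies in the closure of `{y}`. -/
def SpecLE {X : Type u} [TopologicalSpace X] (x y : X) : Prop := x ∈ closure {y}

/-- `D` is directed (in particular nonempty) for the specialization order. -/
def IsDirected {X : Type u} [TopologicalSpace X] (D : Set X) : Prop :=
  D.Nonempty ∧ ∀ a ∈ D, ∀ b ∈ D, ∃ c ∈ D, SpecLE a c ∧ SpecLE b c

/-- `s` is a supremum of `D` for the specialization order. -/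
def IsSupOf {X : Type u} [TopologicalSpace X] (D : Set X) (s : X) : Prop :=
  (∀ d ∈ D, SpecLE d s) ∧ ∀ t : X, (∀ d ∈ D, SpecLE d t) → SpecLE s t

/-- `X` is a d-space: it is `T₀`, every directed set has a supremum, and each open set which
contains the supremum of a directed set meets this directed set. -/
def IsDSpace (X : Type u) [TopologicalSpace X] : Prop :=
  T0Space X ∧ ∀ D : Set X, IsDirected D →
    ∃ s : X, IsSupOf D s ∧ ∀ U : Set X, IsOpen U → s ∈ U → (D ∩ U).Nonempty

/-- `μ : X → Y` is a d-reflection of `X`: `Y` is a d-space, `μ` is continuous, and each continuous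
map of `X` into a d-space factors uniquely through `μ` by a continuous map. -/
def IsDReflection {X Y : Type u} [TopologicalSpace X] [TopologicalSpace Y] (μ : X → Y) : Prop :=
  IsDSpace Y ∧ Continuous μ ∧
    ∀ (Z : Type u) [TopologicalSpace Z], IsDSpace Z → ∀ f : X → Z, Continuous f →
      ∃! g : Y → Z, Continuous g ∧ ∀ x, g (μ x) = f x

end Pool.Agent.N489.DR
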