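import Mathlib
import Pool.Agent.N489.DR.Defs

set_option autoImplicit false

namespace Pool.Agent.N489.DR

open Set Topology TopologicalSpace

universe u v w

section Basic

variable {X : Type u} {Y : Type v} [TopologicalSpace X] [TopologicalSpace Y]

theorem specLE_iff {x y : X} : SpecLE x y ↔ y ⤳ x := by
  rw [SpecLE, specializes_iff_mem_closure]

theorem specLE_iff_open {x y : X} : SpecLE x y ↔ ∀ U : Set X, IsOpen U → x ∈ U → y ∈ U := by
  rw [specLE_iff, specializes_iff_forall_open]

theorem SpecLE.refl (x : X) : SpecLE x x := by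
  rw [specLE_iff]

theorem SpecLE.trans {x y z : X} (h : SpecLE x y) (h' : SpecLE y z) : SpecLE x z := by
  rw [specLE_iff] at *
  exact h'.trans h

theorem SpecLE.antisymm [T0Space X] {x y : X} (h : SpecLE x y) (h' : SpecLE y x) : x = y := by
  rw [specLE_iff] at *
  exact (h'.antisymm h).eq

theorem SpecLE.map {x y : X} (h : SpecLE x y) {f : X → Y} (hf : Continuous f) :
    SpecLE (f x) (f y) := by
  rw [specLE_iff] at *
  exact h.map hf

theorem IsDirected.image {D : Set X} (hD : IsDirected D) {f : X → Y} (hf : Continuous f) :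
    IsDirected (f '' D) := by
  refine ⟨hD.1.image f, ?_⟩
  rintro _ ⟨a, ha, rfl⟩ _ ⟨b, hb, rfl⟩
  obtain ⟨c, hc, h1, h2⟩ := hD.2 a ha b hb
  exact ⟨f c, mem_image_of_mem f hc, h1.map hf, h2.map hf⟩

/-- `s` is a supremum of `D` which is a limit of `D`. -/
def LimSup (D : Set X) (s : X) : Prop :=
  IsSupOf D s ∧ ∀ U : Set X, IsOpen U → s ∈ U → (D ∩ U).Nonempty

theorem IsSupOf.unique [T0Space X] {D : Set X} {s t : X} (hs : IsSupOf D s) (ht : IsSupOf D t) :
    s = t :=
  (hs.2 t ht.1).antisymm (ht.2 s hs.1)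

theorem LimSup.map {D : Set X} {s : X} (h : LimSup D s) {f : X → Y} (hf : Continuous f) :
    LimSup (f '' D) (f s) := by
  refine ⟨⟨?_, ?_⟩, ?_⟩
  · rintro _ ⟨d, hd, rfl⟩
    exact (h.1.1 d hd).map hf
  · intro t ht
    rw [specLE_iff_open]
    intro U hU hs
    obtain ⟨d, hd, hdU⟩ := h.2 (f ⁻¹' U) (hU.preimage hf) hs
    exact (specLE_iff_open.1 (ht (f d) (mem_image_of_mem f hd))) U hU hdU
  · intro U hU hs
    obtain ⟨d, hd, hdU⟩ := h.2 (f ⁻¹' U) (hU.preimage hf) hs
    exact ⟨f d, mem_image_of_mem f hd, hdU⟩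

theorem IsDSpace.limSup (hX : IsDSpace X) {D : Set X} (hD : IsDirected D) {s : X}
    (hs : IsSupOf D s) : LimSup D s := by
  obtain ⟨t, ht, ht'⟩ := hX.2 D hD
  have := hX.1
  rw [hs.unique ht]
  exact ⟨ht, ht'⟩

/-- closed under directed suprema -/
def DClosed (C : Set X) : Prop := ∀ D ⊆ C, IsDirected D → ∀ s, LimSup D s → s ∈ C

theorem DClosed.preimage {C : Set Y} (hC : DClosed C) {f : X → Y} (hf : Continuous f) :
    DClosed (f ⁻¹' C) := by
  intro D hDC hD s hs
  exact hC (f '' D) (by rintro _ ⟨d, hd, rfl⟩; exact hDC hd) (hD.image hf) (f s) (hs.map hf)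

theorem dclosed_eq [T0Space Y] {f g : X → Y} (hf : Continuous f) (hg : Continuous g) :
    DClosed {x | f x = g x} := by
  intro D hDC hD s hs
  have h1 := hs.map hf
  have h2 := hs.map hg
  have h3 : f '' D = g '' D := by
    apply image_congr
    intro a ha
    exact hDC ha
  rw [h3] at h1
  exact h1.1.unique h2.1

/-- The range of `j` is dense for closure under directed suprema. -/
def DDense (j : X → Y) : Prop := ∀ C : Set Y, DClosed C → range j ⊆ C → ∀ y, y ∈ C

theorem isDSpace_subtype (hX : IsDSpace X) {C : Set X} (hC : DClosed C) : IsDSpace C := by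
  have hT := hX.1
  refine ⟨inferInstance, ?_⟩
  intro D hD
  have hD' : IsDirected (Subtype.val '' D) := hD.image continuous_subtype_val
  obtain ⟨s, hs, hs'⟩ := hX.2 _ hD'
  have hsC : s ∈ C := hC (Subtype.val '' D) (by rintro _ ⟨d, _, rfl⟩; exact d.2) hD' s ⟨hs, hs'⟩
  have key : ∀ a b : C, SpecLE a b ↔ SpecLE a.1 b.1 := by
    intro a b
    rw [specLE_iff, specLE_iff]
    exact (subtype_specializes_iff (x := b) (y := a))
  refine ⟨⟨s, hsC⟩, ⟨?_, ?_⟩, ?_⟩
  · intro d hd
    rw [key]
    exact hs.1 d.1 (mem_image_of_mem _ hd)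
  · intro t ht
    rw [key]
    apply hs.2
    rintro _ ⟨d, hd, rfl⟩
    exact (key _ _).1 (ht d hd)
  · intro U hU hsU
    obtain ⟨V, hV, rfl⟩ := isOpen_induced_iff.1 hU
    obtain ⟨_, ⟨d, hd, rfl⟩, hdV⟩ := hs' V hV hsU
    exact ⟨d, hd, hdV⟩

end Basic

/-- a directed set with a greatest element -/
theorem limSup_of_max {X : Type u} [TopologicalSpace X] {D : Set X} {m : X} (hm : m ∈ D)
    (h : ∀ d ∈ D, SpecLE d m) : LimSup D m :=
  ⟨⟨h, fun t ht => ht m hm⟩, fun U _ hU => ⟨m, hm, hU⟩⟩

theorem specLE_true (p : Prop) : SpecLE p True := by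
  rw [specLE_iff, Specializes]
  by_cases hp : p
  · rw [eq_true hp]
  · rw [eq_false hp, nhds_false]
    exact le_top

theorem isDSpace_prop : IsDSpace Prop := by
  refine ⟨inferInstance, ?_⟩
  intro D hD
  by_cases hT : True ∈ D
  · have := limSup_of_max hT (fun d _ => specLE_true d)
    exact ⟨True, this.1, this.2⟩
  · have hF : ∀ d ∈ D, d = False := by
      intro d hd
      by_cases hdd : d
      · rw [eq_true hdd] at hd
        exact absurd hd hT
      · exact eq_false hdd
    obtain ⟨d, hd⟩ := hD.1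
    have hd' := hF d hd
    subst hd'
    have := limSup_of_max hd (fun e he => by rw [hF e he]; exact SpecLE.refl _)
    exact ⟨False, this.1, this.2⟩

section Pi

variable {I : Type u} {X : I → Type v} [∀ i, TopologicalSpace (X i)]

theorem specLE_pi {x y : ∀ i, X i} : SpecLE x y ↔ ∀ i, SpecLE (x i) (y i) := by
  simp only [specLE_iff]
  exact specializes_pi

theorem IsDirected.exists_finset {X : Type u} [TopologicalSpace X] {D : Set X} (hD : IsDirected D)
    {J : Type w} (F : Finset J) (d : J → X) (hd : ∀ j ∈ F, d j ∈ D) :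
    ∃ c ∈ D, ∀ j ∈ F, SpecLE (d j) c := by
  classical
  induction F using Finset.induction_on with
  | empty => obtain ⟨c, hc⟩ := hD.1; exact ⟨c, hc, by simp⟩
  | insert a F ha ih =>
    obtain ⟨c, hc, hc'⟩ := ih (fun j hj => hd j (Finset.mem_insert_of_mem hj))
    obtain ⟨e, he, h1, h2⟩ := hD.2 c hc (d a) (hd a (Finset.mem_insert_self _ _))
    refine ⟨e, he, ?_⟩
    intro j hj
    rcases Finset.mem_insert.1 hj with rfl | hj
    · exact h2
    · exact (hc' j hj).trans h1

theorem limSup_pi {D : Set (∀ i, X i)} (hD : IsDirected D) {s : ∀ i, X i}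
    (hs : ∀ i, LimSup ((fun x : ∀ i, X i => x i) '' D) (s i)) : LimSup D s := by
  classical
  refine ⟨⟨?_, ?_⟩, ?_⟩
  · intro d hd
    rw [specLE_pi]
    intro i
    exact (hs i).1.1 (d i) ⟨d, hd, rfl⟩
  · intro t ht
    rw [specLE_pi]
    intro i
    apply (hs i).1.2
    rintro _ ⟨d, hd, rfl⟩
    exact specLE_pi.1 (ht d hd) i
  · intro U hU hsU
    obtain ⟨F, V, hV, hVU⟩ := isOpen_pi_iff.1 hU s hsU
    have h1 : ∀ i : I, ∃ d : ∀ i, X i, d ∈ D ∧ (i ∈ F → d i ∈ V i) := by
      intro i
      by_cases hi : i ∈ F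
      · obtain ⟨_, ⟨d, hd, rfl⟩, hdV⟩ := (hs i).2 (V i) (hV i hi).1 (hV i hi).2
        exact ⟨d, hd, fun _ => hdV⟩
      · obtain ⟨d, hd⟩ := hD.1
        exact ⟨d, hd, fun h => absurd h hi⟩
    choose d hd hdV using h1
    obtain ⟨c, hc, hc'⟩ := hD.exists_finset F d (fun j _ => hd j)
    refine ⟨c, hc, hVU ?_⟩
    intro i hi
    exact specLE_iff_open.1 (specLE_pi.1 (hc' i hi) i) (V i) (hV i hi).1 (hdV i hi)

theorem isDSpace_pi (h : ∀ i, IsDSpace (X i)) : IsDSpace (∀ i, X i) := by
  have hT : ∀ i, T0Space (X i) := fun i => (h i).1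
  refine ⟨inferInstance, ?_⟩
  intro D hD
  have h1 : ∀ i, ∃ s : X i, LimSup ((fun x : ∀ i, X i => x i) '' D) s := by
    intro i
    obtain ⟨s, hs, hs'⟩ := (h i).2 _ (hD.image (continuous_apply i))
    exact ⟨s, hs, hs'⟩
  choose s hs using h1
  have := limSup_pi hD hs
  exact ⟨s, this.1, this.2⟩

end Pi

/-- The canonical embedding of a `T₀` space in a power of the Sierpinski space. -/
def emb (X : Type u) [TopologicalSpace X] : X → (Opens X → Prop) := fun x U => x ∈ U

section Ext

variable {X : Type u} {Y : Type v} {Z : Type w} [TopologicalSpace X] [TopologicalSpace Y]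
  [TopologicalSpace Z]

theorem emb_isInducing : IsInducing (emb X) := productOfMemOpens_isInducing X

theorem emb_isEmbedding [T0Space X] : IsEmbedding (emb X) := productOfMemOpens_isEmbedding X

/-- A continuous map into a d-space extends along every embedding whose range is dense for closure
under directed suprema. -/
theorem exists_extension {j : X → Y} (hj : IsInducing j) (hd : DDense j)
    (hZ : IsDSpace Z) {f : X → Z} (hf : Continuous f) :
    ∃ g : Y → Z, Continuous g ∧ ∀ x, g (j x) = f x := by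
  have hT := hZ.1
  have h1 : ∀ V : Opens Z, ∃ W : Set Y, IsOpen W ∧ j ⁻¹' W = f ⁻¹' V := by
    intro V
    exact hj.isOpen_iff.1 (V.2.preimage hf)
  choose W hW hWV using h1
  let h : Y → (Opens Z → Prop) := fun y V => y ∈ W V
  have hh : Continuous h := continuous_pi fun V => continuous_Prop.2 (hW V)
  have hhj : ∀ x, h (j x) = emb Z (f x) := by
    intro x
    funext V
    apply propext
    show j x ∈ W V ↔ f x ∈ V
    have := Set.ext_iff.1 (hWV V) x
    exact this
  have hP : IsDSpace (Opens Z → Prop) := isDSpace_pi fun _ => isDSpace_prop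
  have hPT := hP.1
  have hC : DClosed (h ⁻¹' (range (emb Z))) := by
    apply DClosed.preimage _ hh
    intro D hDC hD s hs
    have himg : emb Z '' (emb Z ⁻¹' D) = D := by
      rw [image_preimage_eq_iff]
      exact hDC
    have hD' : IsDirected (emb Z ⁻¹' D) := by
      refine ⟨?_, ?_⟩
      · obtain ⟨d, hd⟩ := hD.1
        obtain ⟨z, rfl⟩ := hDC hd
        exact ⟨z, hd⟩
      · intro a ha b hb
        obtain ⟨c, hc, h1, h2⟩ := hD.2 _ ha _ hb
        obtain ⟨z, rfl⟩ := hDC hc
        refine ⟨z, hc, ?_, ?_⟩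
        · rw [specLE_iff] at *
          exact (emb_isInducing.specializes_iff).1 h1
        · rw [specLE_iff] at *
          exact (emb_isInducing.specializes_iff).1 h2
    obtain ⟨z, hz, hz'⟩ := hZ.2 _ hD'
    have h3 := LimSup.map (⟨hz, hz'⟩ : LimSup _ z) (emb_isInducing (X := Z)).continuous
    rw [himg] at h3
    exact ⟨z, h3.1.unique hs.1⟩
  have h2 : ∀ y, ∃ z, emb Z z = h y := by
    intro y
    exact hd _ hC (by rintro _ ⟨x, rfl⟩; exact ⟨f x, (hhj x).symm⟩) y
  choose g hg using h2
  refine ⟨g, ?_, ?_⟩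
  · rw [continuous_def]
    intro V hV
    have : g ⁻¹' V = W ⟨V, hV⟩ := by
      ext y
      have := congrFun (hg y) ⟨V, hV⟩
      have h4 : (g y ∈ (⟨V, hV⟩ : Opens Z)) = (y ∈ W ⟨V, hV⟩) := this
      exact iff_of_eq h4
    rw [this]
    exact hW _
  · intro x
    apply emb_isEmbedding.injective
    rw [hg, hhj]

theorem eq_of_ddense {j : X → Y} (hd : DDense j) [T0Space Z] {g g' : Y → Z} (hg : Continuous g)
    (hg' : Continuous g') (h : ∀ x, g (j x) = g' (j x)) : g = g' := by
  funext y
  exact hd _ (dclosed_eq hg hg') (by rintro _ ⟨x, rfl⟩; exact h x) y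

end Ext

section Refl

variable {X Y : Type u} [TopologicalSpace X] [TopologicalSpace Y]

theorem isDReflection_of {j : X → Y} (hY : IsDSpace Y) (hj : IsInducing j) (hd : DDense j) :
    IsDReflection j := by
  refine ⟨hY, hj.continuous, ?_⟩
  intro Z _ hZ f hf
  obtain ⟨g, hg, hgj⟩ := exists_extension hj hd hZ hf
  refine ⟨g, ⟨hg, hgj⟩, ?_⟩
  rintro g' ⟨hg', hgj'⟩
  have := hZ.1
  exact eq_of_ddense hd hg' hg (fun x => by rw [hgj', hgj])

theorem IsDReflection.isInducing {μ : X → Y} (h : IsDReflection μ) : IsInducing μ := by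
  obtain ⟨g, ⟨hg, hg'⟩, -⟩ := h.2.2 (Opens X → Prop) (isDSpace_pi fun _ => isDSpace_prop) (emb X)
    emb_isInducing.continuous
  have h1 : g ∘ μ = emb X := funext hg'
  apply IsInducing.of_comp h.2.1 hg
  rw [h1]
  exact emb_isInducing

theorem IsDReflection.ddense {μ : X → Y} (h : IsDReflection μ) : DDense μ := by
  intro C hC hr y
  have hCD := isDSpace_subtype h.1 hC
  obtain ⟨g, ⟨hg, hg'⟩, -⟩ := h.2.2 C hCD (fun x => ⟨μ x, hr ⟨x, rfl⟩⟩)
    (h.2.1.subtype_mk _)
  obtain ⟨k, -, hk⟩ := h.2.2 Y h.1 μ h.2.1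
  have h1 := hk (Subtype.val ∘ g) ⟨continuous_subtype_val.comp hg, fun x => by
    rw [Function.comp_apply, hg']⟩
  have h2 := hk id ⟨continuous_id, fun x => rfl⟩
  have h3 : (Subtype.val ∘ g) y = id y := by rw [h1, h2]
  rw [← show (g y).1 = y from h3]
  exact (g y).2

end Refl

section Main

variable {I : Type u} {X Y : I → Type u} [∀ i, TopologicalSpace (X i)]
  [∀ i, TopologicalSpace (Y i)]

theorem ddense_pi {μ : ∀ i, X i → Y i} (hY : ∀ i, IsDSpace (Y i)) (hμ : ∀ i, DDense (μ i)) :
    DDense (fun (x : ∀ i, X i) (i : I) => μ i (x i)) := by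
  classical
  intro C hC hr y
  -- finite modifications
  have h1 : ∀ F : Finset I, ∀ a : ∀ i, X i, F.piecewise y (fun i => μ i (a i)) ∈ C := by
    intro F
    induction F using Finset.induction_on with
    | empty =>
      intro a
      rw [Finset.piecewise_empty]
      exact hr ⟨a, rfl⟩
    | insert k F hk ih =>
      intro a
      rw [Finset.piecewise_insert]
      have hcl : DClosed ((fun t : Y k =>
          Function.update (F.piecewise y (fun i => μ i (a i))) k t) ⁻¹' C) :=
        hC.preimage (continuous_const.update k continuous_id)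
      apply hμ k _ hcl _ (y k)
      rintro _ ⟨b, rfl⟩
      have h2 : Function.update (F.piecewise y (fun i => μ i (a i))) k (μ k b) =
          F.piecewise y (fun i => μ i (Function.update a k b i)) := by
        funext i
        by_cases hik : i = k
        · subst hik
          rw [Function.update_self, Finset.piecewise_eq_of_notMem _ _ _ hk, Function.update_self]
        · rw [Function.update_of_ne hik]
          by_cases hi : i ∈ F
          · rw [Finset.piecewise_eq_of_mem _ _ _ hi, Finset.piecewise_eq_of_mem _ _ _ hi]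
          · rw [Finset.piecewise_eq_of_notMem _ _ _ hi, Finset.piecewise_eq_of_notMem _ _ _ hi,
              Function.update_of_ne hik]
      show Function.update (F.piecewise y (fun i => μ i (a i))) k (μ k b) ∈ C
      rw [h2]
      exact ih _
  -- every point of the reflection is above a point of the space
  have h2 : ∀ i, ∃ x : X i, SpecLE (μ i x) (y i) := by
    intro i
    have hcl : DClosed {t : Y i | ∃ x : X i, SpecLE (μ i x) t} := by
      intro D hDC hD s hs
      obtain ⟨d, hd⟩ := hD.1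
      obtain ⟨x, hx⟩ := hDC hd
      exact ⟨x, hx.trans (hs.1.1 d hd)⟩
    exact hμ i _ hcl (by rintro _ ⟨x, rfl⟩; exact ⟨x, SpecLE.refl _⟩) (y i)
  choose a ha using h2
  let p : Finset I → (∀ i, Y i) := fun F => F.piecewise y (fun i => μ i (a i))
  have hp : ∀ F i, SpecLE (p F i) (y i) := by
    intro F i
    by_cases hi : i ∈ F
    · rw [show p F i = y i from Finset.piecewise_eq_of_mem _ _ _ hi]
      exact SpecLE.refl _
    · rw [show p F i = μ i (a i) from Finset.piecewise_eq_of_notMem _ _ _ hi]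
      exact ha i
  have hmono : ∀ F G : Finset I, F ⊆ G → SpecLE (p F) (p G) := by
    intro F G hFG
    rw [specLE_pi]
    intro i
    by_cases hi : i ∈ G
    · rw [show p G i = y i from Finset.piecewise_eq_of_mem _ _ _ hi]
      exact hp F i
    · rw [show p G i = μ i (a i) from Finset.piecewise_eq_of_notMem _ _ _ hi,
        show p F i = μ i (a i) from Finset.piecewise_eq_of_notMem _ _ _ (fun h => hi (hFG h))]
      exact SpecLE.refl _
  have hdir : IsDirected (range p) := by
    refine ⟨⟨p ∅, ∅, rfl⟩, ?_⟩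
    rintro _ ⟨F, rfl⟩ _ ⟨G, rfl⟩
    exact ⟨p (F ∪ G), ⟨_, rfl⟩, hmono _ _ Finset.subset_union_left,
      hmono _ _ Finset.subset_union_right⟩
  refine hC (range p) (by rintro _ ⟨F, rfl⟩; exact h1 F a) hdir y ?_
  apply limSup_pi hdir
  intro i
  apply limSup_of_max (m := y i)
  · refine ⟨p {i}, ⟨_, rfl⟩, ?_⟩
    exact Finset.piecewise_eq_of_mem _ _ _ (Finset.mem_singleton_self i)
  · rintro _ ⟨_, ⟨F, rfl⟩, rfl⟩
    exact hp F i

theorem isDReflection_pi {μ : ∀ i, X i → Y i} (hμ : ∀ i, IsDReflection (μ i)) :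
    IsDReflection (fun (x : ∀ i, X i) (i : I) => μ i (x i)) := by
  apply isDReflection_of (isDSpace_pi fun i => (hμ i).1)
  · exact IsInducing.piMap fun i => (hμ i).isInducing
  · exact ddense_pi (fun i => (hμ i).1) (fun i => (hμ i).ddense)

theorem IsDReflection.homeo {X Y W : Type u} [TopologicalSpace X] [TopologicalSpace Y]
    [TopologicalSpace W] {μ : X → Y} {ν : X → W} (hμ : IsDReflection μ) (hν : IsDReflection ν) :
    ∃ h : W ≃ₜ Y, ∀ x, h (ν x) = μ x := by
  obtain ⟨g, ⟨hg, hg'⟩, -⟩ := hν.2.2 Y hμ.1 μ hμ.2.1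
  obtain ⟨k, ⟨hk, hk'⟩, -⟩ := hμ.2.2 W hν.1 ν hν.2.1
  have h1 : ∀ y, g (k y) = y := by
    obtain ⟨q, -, hq⟩ := hμ.2.2 Y hμ.1 μ hμ.2.1
    have e1 := hq (g ∘ k) ⟨hg.comp hk, fun x => by simp [hk', hg']⟩
    have e2 := hq id ⟨continuous_id, fun x => rfl⟩
    intro y
    have := congrFun (e1.trans e2.symm) y
    exact this
  have h2 : ∀ y, k (g y) = y := by
    obtain ⟨q, -, hq⟩ := hν.2.2 W hν.1 ν hν.2.1
    have e1 := hq (k ∘ g) ⟨hk.comp hg, fun x => by simp [hk', hg']⟩
    have e2 := hq id ⟨continuous_id, fun x => rfl⟩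
    intro y
    have := congrFun (e1.trans e2.symm) y
    exact this
  exact ⟨{ toFun := g, invFun := k, left_inv := h2, right_inv := h1,
           continuous_toFun := hg, continuous_invFun := hk }, hg'⟩

end Main

end Pool.Agent.N489.DR
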